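import Pool.Agent.Q260.DS.Stm2

set_option autoImplicit false

/-! # Project DS, job F1: the theorem for L-functions with bounded archimedean parameters -/

namespace Pool.Agent.Q251.DS.F1

open Complex Filter Topology Metric Set
open Pool.Agent.Q260.DS
open Pool.Agent.W169.HF H353.E H353.F Q240.GS
open scoped ComplexConjugate

/-- translation -/
lemma It_shift (N : ℝ) (Λ : ℂ → ℂ) : ∀ (cs : List ℝ),
    It (ff N Λ) cs = fun z => It (XX N Λ) cs (1 / 2 + z)
  | [] => rfl
  | c :: cs => by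
    have ih := It_shift N Λ cs
    funext z
    have h1 : It (ff N Λ) (c :: cs) z = deriv (It (ff N Λ) cs) z - (c : ℂ) * It (ff N Λ) cs z := rfl
    have h2 : It (XX N Λ) (c :: cs) (1 / 2 + z) = deriv (It (XX N Λ) cs) (1 / 2 + z) -
      (c : ℂ) * It (XX N Λ) cs (1 / 2 + z) := rfl
    rw [h1, h2, ih]
    congr 1
    exact deriv_comp_const_add (f := It (XX N Λ) cs) (a := (1 / 2 : ℂ)) (x := z)

/-- the dual function -/
noncomputable def du (Λ : ℂ → ℂ) : ℂ → ℂ := fun s => conj (Λ (conj s))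

lemma XX_du {N : ℝ} (hN : 0 < N) (Λ : ℂ → ℂ) : XX N (du Λ) = fun s => conj (XX N Λ (conj s)) := by
  funext s
  unfold XX du
  rw [map_mul]
  congr 1
  have h1 : ((N : ℂ)).arg ≠ Real.pi := by
    rw [Complex.arg_ofReal_of_nonneg hN.le]
    exact Real.pi_ne_zero.symm
  have h2 := Complex.cpow_conj (N : ℂ) (s / 2) h1
  rw [conj_ofReal] at h2
  have h3 : conj s / 2 = conj (s / 2) := by
    rw [map_div₀, map_ofNat]
  rw [h3, h2, Complex.conj_conj]

lemma It_du {N : ℝ} (hN : 0 < N) (Λ : ℂ → ℂ) : ∀ (cs : List ℝ),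
    It (XX N (du Λ)) cs = fun s => conj (It (XX N Λ) cs (conj s))
  | [] => XX_du hN Λ
  | c :: cs => by
    have ih := It_du hN Λ cs
    funext s
    have h1 : It (XX N (du Λ)) (c :: cs) s = deriv (It (XX N (du Λ)) cs) s -
      (c : ℂ) * It (XX N (du Λ)) cs s := rfl
    have h2 : It (XX N Λ) (c :: cs) (conj s) = deriv (It (XX N Λ) cs) (conj s) -
      (c : ℂ) * It (XX N Λ) cs (conj s) := rfl
    rw [h1, h2, ih, map_sub, map_mul, conj_ofReal]
    congr 1
    exact congrFun (deriv_conj_conj (𝕜 := ℂ) (f := It (XX N Λ) cs)) s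

lemma cnd_du {m : ℕ} (N : ℝ) (μ : Fin m → ℂ) (y : ℝ) :
    cnd N (fun j => conj (μ j)) (-y) = cnd N μ y := by
  unfold cnd
  congr 1
  refine Finset.prod_congr rfl fun j _ => ?_
  congr 1
  have e : (((-y : ℝ) : ℂ)) * I - conj (μ j) = conj ((y : ℂ) * I - μ j) := by
    rw [map_sub, map_mul, conj_ofReal, conj_I]
    push_cast
    ring
  rw [e, Complex.norm_conj]

lemma ob_du (h2 : S_DU) {m : ℕ} {N : ℝ} {μ : Fin m → ℂ} {Λ : ℂ → ℂ} (h : Ob N μ Λ) :
    Ob N (fun j => conj (μ j)) (du Λ) := h2 m N μ Λ h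

lemma du_zero {Λ : ℂ → ℂ} {s : ℂ} : du Λ (conj s) = 0 ↔ Λ s = 0 := by
  unfold du
  rw [Complex.conj_conj, map_eq_zero]

lemma ob_N {m : ℕ} {N : ℝ} {μ : Fin m → ℂ} {Λ : ℂ → ℂ} (h : Ob N μ Λ) :
    1 ≤ N ∧ (∀ j, (μ j).re ≤ 1 / 2) ∧ (∀ s : ℂ, Λ s = 0 → s.re ≤ 1) ∧
      ∀ s : ℂ, Λ s = 0 → Λ (1 - conj s) = 0 := by
  obtain ⟨α, ε, d, hnz⟩ := h
  refine ⟨d.one_le, d.re_le, fun s hs => ?_, fun s hs => ?_⟩
  · by_contra hc
    push Not at hc
    exact hnz s hc hs
  · rw [d.fe (1 - conj s)]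
    have e : 1 - conj (1 - conj s) = s := by
      rw [map_sub, map_one, Complex.conj_conj]
      ring
    rw [e, hs, map_zero, mul_zero]

lemma ff_zero {N : ℝ} (hN : 0 < N) {Λ : ℂ → ℂ} {z : ℂ} : ff N Λ z = 0 ↔ Λ (1 / 2 + z) = 0 := by
  unfold ff
  exact XX_zero hN

lemma sys_mono {K A A' y0 : ℝ} {f : ℂ → ℂ} {l g : ℝ → ℝ} (hA : 1 ≤ A) (hAA : A ≤ A')
    (h : Sys K A y0 f l g) : Sys K A' y0 f l g := by
  refine ⟨h.diff, h.pos, h.up, h.lo, h.shift, fun y v hy hv => ?_⟩
  refine (h.dec y v hy hv).trans (mul_le_mul_of_nonneg_right ?_ (h.pos y).le)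
  refine mul_le_mul hAA (Real.exp_le_exp.2 ?_) (Real.exp_pos _).le (by linarith)
  rw [neg_div, neg_div, neg_le_neg_iff]
  exact div_le_div_of_nonneg_left hv (by linarith) hAA

lemma li_mono {A A' : ℝ} {k : ℕ} {cs : List ℝ} (hAA : A ≤ A') (h : Li A k cs) : Li A' k cs :=
  ⟨h.1, fun c hc => (h.2 c hc).trans hAA⟩

/-- `Ok` for a fixed `δ` and large `L`. -/
lemma ok_fixed {C δ : ℝ} (hC : 1 ≤ C) (hδ : 0 < δ) (hδ2 : δ ≤ 1 / 2) :
    ∃ L0 : ℝ, 1 ≤ L0 ∧ ∀ L : ℝ, L0 ≤ L → Ok C L δ := by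
  refine ⟨max 1 ((C / δ ^ 3) ^ (C / δ)), le_max_left _ _, fun L hL => ⟨hδ, hδ2, ?_⟩⟩
  have h1 := (le_max_right _ _).trans hL
  have h2 : 0 ≤ C / δ ^ 3 := by positivity
  have h3 : ((C / δ ^ 3) ^ (C / δ)) ^ (δ / C) = C / δ ^ 3 := by
    rw [← Real.rpow_mul h2]
    have e : C / δ * (δ / C) = 1 := by field_simp
    rw [e, Real.rpow_one]
  calc C / δ ^ 3 = ((C / δ ^ 3) ^ (C / δ)) ^ (δ / C) := h3.symm
    _ ≤ L ^ (δ / C) := Real.rpow_le_rpow (Real.rpow_nonneg h2 _) h1 (by positivity)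

lemma half_re (s : ℂ) : (s - 1 / 2).re = s.re - 1 / 2 ∧ (s - 1 / 2).im = s.im := by
  constructor <;> simp

lemma half_re' (z : ℂ) : (1 / 2 + z).re = 1 / 2 + z.re ∧ (1 / 2 + z).im = z.im := by
  constructor <;> simp

/-- comparison of the two rates -/
lemma rate {e L a b : ℝ} (ha : 1 ≤ a) (hb : 1 ≤ b) (hL : 100 * a + 100 * b ≤ L) (h1 : L ≤ 2 * e + a)
    (h2 : 2 * e ≤ L + b) :
    Real.log (Real.log e) / Real.log e ≤ 2 * (Real.log (Real.log L) / Real.log L) := by
  have hL0 : 0 < L := by linarith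
  have he1 : L / 4 ≤ e := by linarith
  have he2 : e ≤ L := by linarith
  have he0 : 0 < e := by linarith
  have hlogL : 4 ≤ Real.log L := by
    rw [Real.le_log_iff_exp_le hL0]
    have h3 : Real.exp 4 = Real.exp 1 ^ 4 := by rw [← Real.exp_nat_mul]; norm_num
    have h4 := Real.exp_one_lt_d9
    have h5 : Real.exp 1 ^ 4 ≤ 2.72 ^ 4 := pow_le_pow_left₀ (Real.exp_pos 1).le (by linarith) 4
    rw [h3]
    refine h5.trans ?_
    norm_num
    linarith
  have h4 : Real.log L / 2 ≤ Real.log e := by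
    have h5 : Real.log (L / 4) ≤ Real.log e := Real.log_le_log (by linarith) he1
    rw [Real.log_div hL0.ne' (by norm_num)] at h5
    have h6 : Real.log 4 ≤ 2 := by
      have e4 : (4 : ℝ) = 2 ^ 2 := by norm_num
      rw [e4, Real.log_pow]
      have := Real.log_two_lt_d9
      push_cast
      linarith
    linarith
  have h5 : Real.log e ≤ Real.log L := Real.log_le_log he0 he2
  have h6 : Real.log (Real.log e) ≤ Real.log (Real.log L) := Real.log_le_log (by linarith) h5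
  have h7 : 0 ≤ Real.log (Real.log L) := Real.log_nonneg (by linarith)
  calc Real.log (Real.log e) / Real.log e ≤ Real.log (Real.log L) / Real.log e :=
        div_le_div_of_nonneg_right h6 (by linarith)
    _ ≤ Real.log (Real.log L) / (Real.log L / 2) :=
        div_le_div_of_nonneg_left h7 (by linarith) h4
    _ = _ := by field_simp

theorem t_F1 (h1 : S_SY) (h2 : S_DU) (h3 : S_DI) (h4 : S_RA) (h5 : S_DN) : S_F1 := by
  intro m k M A hm hM hA
  obtain ⟨K, A1, hK, hA1, hSY⟩ := h1 m M (4 * k) hm hM (by positivity)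
  obtain ⟨A2, hA2⟩ : ∃ A2 : ℝ, A2 = max A A1 := ⟨_, rfl⟩
  have hA21 : A ≤ A2 := by rw [hA2]; exact le_max_left _ _
  have hA22 : A1 ≤ A2 := by rw [hA2]; exact le_max_right _ _
  have hA23 : 1 ≤ A2 := hA.trans hA21
  have hm' : (1 : ℝ) ≤ m := by exact_mod_cast hm
  have hk0 : (0 : ℝ) ≤ k := k.cast_nonneg
  have hS : ∀ (N : ℝ) (μ : Fin m → ℂ) (Λ : ℂ → ℂ), Ob N μ Λ → (∀ j, ‖μ j‖ ≤ M) →
      Sys K A2 (-(4 * k)) (ff N Λ) (el N μ) (gg N μ) := fun N μ Λ ho hμ =>
    sys_mono hA1 hA22 (hSY N μ Λ ho hμ)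
  have hconjM : ∀ μ : Fin m → ℂ, (∀ j, ‖μ j‖ ≤ M) → ∀ j, ‖conj (μ j)‖ ≤ M := fun μ h j => by
    rw [Complex.norm_conj]
    exact h j
  constructor
  · intro ε hε
    obtain ⟨C1, hC1, HDI⟩ := h3 K A2 ε k hK hA23 hε
    obtain ⟨C2, hC2, HDN⟩ := h5 K A2 0 k hK hA23 le_rfl
    obtain ⟨δ, hδ⟩ : ∃ δ : ℝ, δ = 1 / (4 * C2) := ⟨_, rfl⟩
    have hδ0 : 0 < δ := by rw [hδ]; positivity
    have hδ2 : δ ≤ 1 / 2 := by
      rw [hδ]
      apply one_div_le_one_div_of_le (by norm_num)
      linarith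
    have hCδ : C2 * δ = 1 / 4 := by rw [hδ]; field_simp
    obtain ⟨L0, hL0, hok⟩ := ok_fixed hC2 hδ0 hδ2
    obtain ⟨C, hC⟩ : ∃ C : ℝ, C = 2 * (C1 + C2 + L0) + 14 * m + C1 * (1 + 10 * m) + 4 * k := ⟨_, rfl⟩
    have hq : 0 ≤ C1 * (1 + 10 * m) := by positivity
    have hC0 : 1 ≤ C := by rw [hC]; linarith
    refine ⟨C, hC0, ?_⟩
    intro N μ Λ ho hμ cs hcs
    -- the slope
    have hel : ∀ (μ : Fin m → ℂ) (Λ : ℂ → ℂ), Ob N μ Λ → ∀ y : ℝ, C ≤ Real.log (cnd N μ y) →
        C1 ≤ el N μ y ∧ C2 ≤ el N μ y ∧ L0 ≤ el N μ y ∧ C1 * el N μ y ≤ C * Real.log (cnd N μ y) := by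
      intro μ Λ ho y hy
      obtain ⟨hN, hre, -, -⟩ := ob_N ho
      obtain ⟨e1, e2⟩ := el_bd hN hre y
      refine ⟨by linarith, by linarith, by linarith, ?_⟩
      have e3 : C1 * el N μ y ≤ C1 * (1 + 10 * m) * Real.log (cnd N μ y) := by
        rw [mul_assoc]
        refine mul_le_mul_of_nonneg_left ?_ (by linarith)
        nlinarith
      refine e3.trans (mul_le_mul_of_nonneg_right ?_ (by linarith))
      rw [hC]
      linarith
    -- heights `≥ 0`
    have half : ∀ (μ : Fin m → ℂ) (Λ : ℂ → ℂ), Ob N μ Λ → (∀ j, ‖μ j‖ ≤ M) → ∀ (s : ℂ) (σ : ℝ), 0 ≤ s.im →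
        Λ s = 0 → C ≤ Real.log (cnd N μ s.im) → 1 / 2 ≤ σ → σ + ε ≤ s.re →
        ∃ w : ℂ, It (XX N Λ) cs w = 0 ∧ σ < w.re ∧ w.re ≤ 5 / 2 ∧
          |w.im - s.im| ≤ C * Real.log (cnd N μ s.im) := by
      intro μ Λ ho hμ s σ hs0 hs hcn hσ hσs
      obtain ⟨hN, hre, hr1, -⟩ := ob_N ho
      obtain ⟨e1, e2, e3, e4⟩ := hel μ Λ ho s.im hcn
      obtain ⟨z, hz⟩ : ∃ z : ℂ, z = s - 1 / 2 := ⟨_, rfl⟩
      obtain ⟨hzre, hzim⟩ := half_re s
      rw [← hz] at hzre hzim
      have hfz : ff N Λ z = 0 := by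
        rw [ff_zero (by linarith), hz]
        rw [show (1 / 2 + (s - 1 / 2) : ℂ) = s by ring]
        exact hs
      obtain ⟨w, w1, w2, w3, w4, w5⟩ := (HDI (-(4 * k)) (ff N Λ) (el N μ) (gg N μ) (hS N μ Λ ho hμ) cs
        (li_mono hA21 hcs)).1 z (σ - 1 / 2) hfz (by rw [hzim]; linarith) (by rw [hzim]; exact e1)
        (by linarith) (by rw [hzre]; linarith) (by rw [hzre]; linarith [hr1 s hs])
      rw [It_shift] at w1
      rw [hzim] at w4 w5
      obtain ⟨q1, q2⟩ := half_re' w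
      refine ⟨1 / 2 + w, w1, by rw [q1]; linarith, by rw [q1]; linarith, ?_⟩
      rw [q2, abs_le]
      have h6 : 4 * (k : ℝ) ≤ C * Real.log (cnd N μ s.im) := by
        have h7 : 4 * (k : ℝ) ≤ C := by rw [hC]; linarith
        have h8 : C ≤ C * Real.log (cnd N μ s.im) := by nlinarith
        linarith
      constructor <;> linarith
    refine ⟨?_, ?_⟩
    · intro s σ hs hcn hσ hσs
      rcases le_total 0 s.im with h0 | h0
      · exact half μ Λ ho hμ s σ h0 hs hcn hσ hσs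
      · have hN := (ob_N ho).1
        obtain ⟨w, w1, w2, w3, w4⟩ := half (fun j => conj (μ j)) (du Λ) (ob_du h2 ho) (hconjM μ hμ)
          (conj s) σ (by rw [conj_im]; linarith) (du_zero.2 hs)
          (by rw [conj_im, cnd_du]; exact hcn) hσ (by rw [conj_re]; exact hσs)
        rw [conj_im, cnd_du] at w4
        rw [It_du (by linarith)] at w1
        refine ⟨conj w, (map_eq_zero _).1 w1, by rw [conj_re]; exact w2, by rw [conj_re]; exact w3, ?_⟩
        rw [conj_im]
        have e : -w.im - s.im = -(w.im - -s.im) := by ring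
        rw [e, abs_neg]
        exact w4
    · intro s σ hs hcn hσ hσs hs52
      obtain ⟨hN, hre, hr1, -⟩ := ob_N ho
      obtain ⟨e1, e2, e3, e4⟩ := hel μ Λ ho s.im hcn
      obtain ⟨z, hz⟩ : ∃ z : ℂ, z = s - 1 / 2 := ⟨_, rfl⟩
      obtain ⟨hzre, hzim⟩ := half_re s
      rw [← hz] at hzre hzim
      have hsys := hS N μ Λ ho hμ
      have hfz : It (ff N Λ) cs z = 0 := by
        rw [It_shift]
        show It (XX N Λ) cs (1 / 2 + z) = 0
        rw [hz, show (1 / 2 + (s - 1 / 2) : ℂ) = s by ring]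
        exact hs
      have hz1 : z.re ≤ 1 := by
        by_contra hc
        push Not at hc
        have hnz := HDN (-(4 * k)) (ff N Λ) (el N μ) (gg N μ) hsys cs (li_mono hA21 hcs) s.im (1 / 2) δ
          e2 (by norm_num) (by rw [hCδ]; norm_num) (hok _ e3) (fun v hv1 hv2 hv3 hv4 h => by
            rw [ff_zero (by linarith)] at h
            have := hr1 _ h
            rw [(half_re' v).1] at this
            linarith)
        exact hnz z (by rw [hCδ]; linarith) (by rw [hzre]; linarith) (by rw [hzim]; linarith)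
          (by rw [hzim]; linarith) hfz
      obtain ⟨w, w1, w2, w3, w4⟩ := (HDI (-(4 * k)) (ff N Λ) (el N μ) (gg N μ) hsys cs
        (li_mono hA21 hcs)).2 z (σ - 1 / 2) hfz (by rw [hzim]; exact e1) (by linarith)
        (by rw [hzre]; linarith) hz1
      rw [ff_zero (by linarith)] at w1
      obtain ⟨q1, q2⟩ := half_re' w
      refine ⟨1 / 2 + w, w1, by rw [q1]; linarith, ?_⟩
      rw [q2, ← hzim]
      exact w4
  · obtain ⟨C1, hC1, HRA⟩ := h4 K A2 k hK hA23
    obtain ⟨C, hC⟩ : ∃ C : ℝ, C = 2 * C1 + 1400 * m + 1400 * m + C1 * (1 + 10 * m) + 4 * k := ⟨_, rfl⟩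
    have hq : 0 ≤ C1 * (1 + 10 * m) := by positivity
    have hC0 : 1 ≤ C := by rw [hC]; linarith
    refine ⟨C, hC0, ?_⟩
    intro N μ Λ ho hμ cs hcs
    -- one side, heights `≥ 0`
    have half : ∀ (μ : Fin m → ℂ) (Λ : ℂ → ℂ), Ob N μ Λ → (∀ j, ‖μ j‖ ≤ M) → ∀ T : ℝ, 0 ≤ T →
        C ≤ Real.log (cnd N μ T) →
        (∀ s : ℂ, It (XX N Λ) cs s = 0 → 1 / 2 < s.re → s.re ≤ 5 / 2 →
          C * Real.log (cnd N μ T) < |s.im - T|) →
        ∀ s : ℂ, Λ s = 0 → s.im = T → |s.re - 1 / 2| ≤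
          C * (Real.log (Real.log (Real.log (cnd N μ T))) / Real.log (Real.log (cnd N μ T))) := by
      intro μ Λ ho hμ T hT0 hcn hno s hs hsT
      obtain ⟨hN, hre, hr1, hfe⟩ := ob_N ho
      obtain ⟨L, hL⟩ : ∃ L : ℝ, L = Real.log (cnd N μ T) := ⟨_, rfl⟩
      obtain ⟨e1, e2⟩ := el_bd hN hre T
      rw [← hL] at hcn hno e1 e2 ⊢
      obtain ⟨e, he⟩ : ∃ e : ℝ, e = el N μ T := ⟨_, rfl⟩
      rw [← he] at e1 e2
      have he1 : C1 ≤ e := by linarith
      have hrate := rate (e := e) (L := L) (a := 14 * m) (b := 10 * m) (by linarith) (by linarith)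
        (by linarith) e1 e2
      have hCe : C1 * e ≤ C * L := by
        have e3 : C1 * e ≤ C1 * (1 + 10 * m) * L := by
          rw [mul_assoc]
          refine mul_le_mul_of_nonneg_left ?_ (by linarith)
          nlinarith
        refine e3.trans (mul_le_mul_of_nonneg_right ?_ (by linarith))
        rw [hC]
        linarith
      have h6 : 4 * (k : ℝ) ≤ C * L := by
        have h7 : 4 * (k : ℝ) ≤ C := by rw [hC]; linarith
        have h8 : C ≤ C * L := by nlinarith
        linarith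
      have hNZ : NZ (It (ff N Λ) cs) 0 (T - 4 * k) (T + C1 * e) := by
        intro v hv1 hv2 hv3 hv4 hv5
        rw [It_shift] at hv5
        obtain ⟨q1, q2⟩ := half_re' v
        have h9 := hno (1 / 2 + v) hv5 (by rw [q1]; linarith) (by rw [q1]; linarith)
        rw [q2] at h9
        have h10 : |v.im - T| ≤ C * L := by
          rw [abs_le]
          constructor <;> linarith
        linarith
      have hmain := HRA (-(4 * k)) (ff N Λ) (el N μ) (gg N μ) (hS N μ Λ ho hμ) cs (li_mono hA21 hcs) T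
        (by linarith) (by rw [← he]; exact he1) (by rw [← he]; exact hNZ)
      rw [← he] at hmain
      -- one-sided bound
      have hone : ∀ s : ℂ, Λ s = 0 → s.im = T → s.re - 1 / 2 ≤ C * (Real.log (Real.log L) / Real.log L) := by
        intro s hs hsT
        obtain ⟨hzre, hzim⟩ := half_re s
        have h9 : ¬ C1 * (Real.log (Real.log e) / Real.log e) ≤ (s - 1 / 2).re := by
          intro hc
          refine hmain (s - 1 / 2) (by rw [hzim]; exact hsT) hc ?_
          rw [ff_zero (by linarith), show (1 / 2 + (s - 1 / 2) : ℂ) = s by ring]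
          exact hs
        push Not at h9
        rw [hzre] at h9
        have hLL : 0 ≤ Real.log (Real.log L) / Real.log L := by
          have hL4 : 4 ≤ Real.log L := by
            rw [Real.le_log_iff_exp_le (by linarith)]
            have h3 : Real.exp 4 = Real.exp 1 ^ 4 := by rw [← Real.exp_nat_mul]; norm_num
            have h4 := Real.exp_one_lt_d9
            have h5 : Real.exp 1 ^ 4 ≤ 2.72 ^ 4 := pow_le_pow_left₀ (Real.exp_pos 1).le (by linarith) 4
            rw [h3]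
            refine h5.trans ?_
            norm_num
            linarith
          exact div_nonneg (Real.log_nonneg (by linarith)) (by linarith)
        have h10 : C1 * (Real.log (Real.log e) / Real.log e) ≤
            C1 * (2 * (Real.log (Real.log L) / Real.log L)) :=
          mul_le_mul_of_nonneg_left hrate (by linarith)
        have h11 : C1 * (2 * (Real.log (Real.log L) / Real.log L)) ≤
            C * (Real.log (Real.log L) / Real.log L) := by
          rw [← mul_assoc]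
          refine mul_le_mul_of_nonneg_right ?_ hLL
          rw [hC]
          linarith
        linarith
      rw [abs_le]
      constructor
      · have h9 := hone (1 - conj s) (hfe s hs) (by simp [hsT])
        have e3 : (1 - conj s).re = 1 - s.re := by simp
        rw [e3] at h9
        linarith
      · exact hone s hs hsT
    intro T hcn hno s hs hsT
    rcases le_total 0 T with h0 | h0
    · exact half μ Λ ho hμ T h0 hcn hno s hs hsT
    · have hN := (ob_N ho).1
      have h9 := half (fun j => conj (μ j)) (du Λ) (ob_du h2 ho) (hconjM μ hμ) (-T) (by linarith)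
        (by rw [cnd_du]; exact hcn) (fun v hv hv1 hv2 => by
          rw [It_du (by linarith)] at hv
          have h10 := hno (conj v) ((map_eq_zero _).1 hv) (by rw [conj_re]; exact hv1)
            (by rw [conj_re]; exact hv2)
          rw [conj_im] at h10
          rw [cnd_du]
          have e : -v.im - T = -(v.im - -T) := by ring
          rwa [e, abs_neg] at h10) (conj s) (du_zero.2 hs) (by rw [conj_im, hsT])
      rw [conj_re, cnd_du] at h9
      exact h9

end Pool.Agent.Q251.DS.F1
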