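import Pool.Agent.Q260.DS.Stm2
import Pool.Agent.Q144.DJ.HA

set_option autoImplicit false

/-! # Project DS, job HD: decay of the gamma factor -/

namespace Pool.Agent.Q251.DS.HD

open Complex Filter Topology Metric Set
open Pool.Agent.Q260.DS
open Pool.Agent.W169.HF H353.E H353.F Q240.GS
open Pool.Agent.Q144.DJ (er_min sum_min sin_lt im_inv)
open scoped ComplexConjugate

lemma arg_big (R : ℝ) (hR : 0 ≤ R) :
    ∃ Y : ℝ, 0 < Y ∧ ∀ w : ℂ, 0 ≤ w.re → w.re ≤ R → Y ≤ w.im → 7 / 5 ≤ arg w := by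
  obtain ⟨u, hu⟩ : ∃ u : ℝ, u = Real.sin (7 / 5) := ⟨_, rfl⟩
  have hu1 : u < 1 := by rw [hu]; exact sin_lt
  have hu0 : 0 < u := by
    rw [hu]
    apply Real.sin_pos_of_pos_of_lt_pi (by norm_num)
    have := Real.pi_gt_three
    linarith
  have h3 : 0 < 1 - u := by linarith
  refine ⟨(R + 1) * u / (1 - u), by positivity, ?_⟩
  intro w h0 h1 h2
  have hY : 0 < w.im := lt_of_lt_of_le (by positivity) h2
  rw [Complex.arg_of_re_nonneg h0, Real.le_arcsin_iff_sin_le' ⟨by have := Real.pi_gt_three; linarith,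
    by have := Real.pi_gt_d2; linarith⟩, ← hu]
  have hn : 0 < ‖w‖ := by
    have := abs_im_le_norm w
    rw [abs_of_pos hY] at this
    linarith
  rw [le_div_iff₀ hn]
  have h4 : ‖w‖ ≤ R + 1 + w.im := by
    refine (norm_le_abs_re_add_abs_im w).trans ?_
    rw [abs_of_nonneg h0, abs_of_pos hY]
    linarith
  rw [div_le_iff₀ h3] at h2
  calc u * ‖w‖ ≤ u * (R + 1 + w.im) := by gcongr
    _ ≤ w.im := by linarith

lemma im_psi (R : ℝ) (hR : 0 ≤ R) : ∃ Y : ℝ, 0 < Y ∧ ∀ w : ℂ, 0 < w.re → w.re ≤ R → Y ≤ w.im →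
    6 / 5 ≤ (logDeriv Gamma w).im := by
  obtain ⟨Y1, h1⟩ := sum_min
  obtain ⟨Y2, hY2, h2⟩ := arg_big (R + 2) (by linarith)
  refine ⟨max Y1 Y2, lt_max_of_lt_right hY2, ?_⟩
  intro w hw hw2 hY
  have hw0 : 0 < w.im := lt_of_lt_of_le (lt_max_of_lt_right hY2) hY
  have ha := h2 (w + 2) (by simp; linarith) (by simp; linarith) (by
    simp only [add_im, im_ofNat, add_zero]
    exact (le_max_right _ _).trans hY)
  have hs := h1 w.im ((le_max_left _ _).trans hY)
  have hS : Summable (fun n : ℕ => min (1 / ((n : ℝ) + 1) ^ 2) (1 / w.im ^ 2)) :=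
    Summable.of_nonneg_of_le (fun n => le_min (by positivity) (by positivity))
      (fun n => min_le_left _ _) H370.DG.summable_inv_sq
  have he : ‖∑' n, H370.DG.er n w‖ ≤ 1 / 20 :=
    (tsum_of_norm_bounded hS.hasSum fun n => er_min n hw hw0).trans hs
  have he2 : -(1 / 20) ≤ (∑' n, H370.DG.er n w).im := by
    have := abs_im_le_norm (∑' n, H370.DG.er n w)
    rw [abs_le] at this
    linarith [this.1]
  rw [H370.DG.logDeriv_Gamma' hw]
  have e1 := im_inv hw0
  have e2 := im_inv (w := w + 1) (by simpa using hw0)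
  rw [add_im, sub_im, sub_im, Complex.log_im]
  linarith

/-- the imaginary part of the logarithmic derivative of the gamma factor -/
lemma gaD_im {m : ℕ} (hm : 1 ≤ m) {M : ℝ} (hM : 0 ≤ M) : ∃ Y1 : ℝ, 0 ≤ Y1 ∧
    ∀ (N : ℝ) (μ : Fin m → ℂ), (∀ j, (μ j).re ≤ 1 / 2) → (∀ j, ‖μ j‖ ≤ M) → ∀ y : ℝ, Y1 ≤ y →
    1 / 4 ≤ (gaD N μ (3 / 2 + y * I)).im := by
  obtain ⟨Y, hY, H⟩ := im_psi ((3 / 2 + M) / 2) (by positivity)
  refine ⟨2 * Y + M, by positivity, ?_⟩
  intro N μ hμ hμM y hy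
  have hm' : (1 : ℝ) ≤ m := by exact_mod_cast hm
  unfold gaD
  rw [add_im, ofReal_im, zero_add, im_sum]
  have h2 : ∀ j ∈ (Finset.univ : Finset (Fin m)), (3 / 5 : ℝ) ≤
      ((((-(Real.log Real.pi) / 2 : ℝ)) : ℂ) + logDeriv Gamma (((3 / 2 + y * I) - μ j) / 2) / 2).im := by
    intro j _
    have e : ∀ z : ℂ, (z / 2).im = z.im / 2 := fun z => by
      rw [show (2 : ℂ) = ((2 : ℝ) : ℂ) by norm_num, Complex.div_ofReal_im]
    have e' : ∀ z : ℂ, (z / 2).re = z.re / 2 := fun z => by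
      rw [show (2 : ℂ) = ((2 : ℝ) : ℂ) by norm_num, Complex.div_ofReal_re]
    rw [add_im, ofReal_im, zero_add, e]
    have h3 := (abs_re_le_norm (μ j)).trans (hμM j)
    have h4 := (abs_im_le_norm (μ j)).trans (hμM j)
    rw [abs_le] at h3 h4
    have h5 := hμ j
    have hre : (3 / 2 + (y : ℂ) * I - μ j).re = 3 / 2 - (μ j).re := by simp
    have him : (3 / 2 + (y : ℂ) * I - μ j).im = y - (μ j).im := by simp
    have h6 := H ((3 / 2 + (y : ℂ) * I - μ j) / 2) (by rw [e', hre]; linarith)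
      (by rw [e', hre]; linarith [h3.1]) (by rw [e, him]; linarith [h4.2])
    linarith
  have h3 := Finset.sum_le_sum h2
  rw [Finset.sum_const, Finset.card_univ, Fintype.card_fin, nsmul_eq_mul] at h3
  linarith

/-- the derivative of the logarithm of the size on a vertical line -/
lemma log_der {m : ℕ} (hm : 1 ≤ m) {N : ℝ} (hN : 1 ≤ N) {μ : Fin m → ℂ} (hμ : ∀ j, (μ j).re ≤ 1 / 2)
    (t : ℝ) : HasDerivAt (fun t : ℝ => Real.log (‖gaf N μ (3 / 2 + t * I)‖ ^ 2))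
      (-2 * (gaD N μ (3 / 2 + t * I)).im) t := by
  have gp := gaf_GP hm hN hμ
  have hs : 1 ≤ (3 / 2 + (t : ℂ) * I).re := by simp; norm_num
  have h0 := gp.ne _ hs
  have h1 : HasDerivAt (fun u : ℝ => (3 / 2 + (u : ℂ) * I : ℂ)) I t := by
    have := ((Complex.ofRealCLM.hasDerivAt (x := t)).mul_const I).const_add (3 / 2 : ℂ)
    simpa using this
  have h2 : HasDerivAt (fun u : ℝ => gaf N μ (3 / 2 + (u : ℂ) * I))
      (I • (gaf N μ (3 / 2 + (t : ℂ) * I) * gaD N μ (3 / 2 + (t : ℂ) * I))) t :=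
    HasDerivAt.scomp_of_eq t (gp.der _ hs) h1 rfl
  have h3 := h2.norm_sq
  have hne : ‖gaf N μ (3 / 2 + (t : ℂ) * I)‖ ^ 2 ≠ 0 := pow_ne_zero _ (norm_ne_zero_iff.2 h0)
  have h4 := h3.log hne
  refine h4.congr_deriv ?_
  obtain ⟨w, hw⟩ : ∃ w : ℂ, w = gaf N μ (3 / 2 + (t : ℂ) * I) := ⟨_, rfl⟩
  obtain ⟨d, hd⟩ : ∃ d : ℂ, d = gaD N μ (3 / 2 + (t : ℂ) * I) := ⟨_, rfl⟩
  rw [← hw] at hne ⊢
  rw [← hd]
  rw [div_eq_iff hne, Complex.inner, smul_eq_mul, Complex.sq_norm]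
  simp only [Complex.normSq_apply, mul_re, mul_im, I_re, I_im, conj_re, conj_im]
  ring

lemma log_bound {m : ℕ} (hm : 1 ≤ m) {N : ℝ} (hN : 1 ≤ N) {μ : Fin m → ℂ} (hμ : ∀ j, (μ j).re ≤ 1 / 2)
    {a b κ : ℝ} (hab : a ≤ b) (h : ∀ t ∈ Icc a b, -(gaD N μ (3 / 2 + t * I)).im ≤ κ) :
    Real.log (‖gaf N μ (3 / 2 + b * I)‖ ^ 2) ≤ Real.log (‖gaf N μ (3 / 2 + a * I)‖ ^ 2) +
      2 * κ * (b - a) := by
  have h1 := (convex_Icc a b).image_sub_le_mul_sub_of_deriv_le
    (f := fun t : ℝ => Real.log (‖gaf N μ (3 / 2 + t * I)‖ ^ 2)) (C := 2 * κ)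
    (fun t _ => (log_der hm hN hμ t).continuousAt.continuousWithinAt)
    (fun t _ => (log_der hm hN hμ t).differentiableAt.differentiableWithinAt)
    (fun t ht => by
      rw [(log_der hm hN hμ t).deriv]
      have := h t (interior_subset ht)
      linarith) a (left_mem_Icc.2 hab) b (right_mem_Icc.2 hab) hab
  linarith

theorem t_HD : S_HD := by
  intro m M Y hm hM hY
  obtain ⟨Y1, hY1, HY⟩ := gaD_im hm hM
  have hm' : (1 : ℝ) ≤ m := by exact_mod_cast hm
  obtain ⟨κ, hκ⟩ : ∃ κ : ℝ, κ = (6 * m + 1 / 4) * (Y + Y1) := ⟨_, rfl⟩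
  have hκ0 : 0 ≤ κ := by rw [hκ]; positivity
  obtain ⟨P, hP⟩ : ∃ P : ℝ, P = κ + 12 * m + 1 / 8 + m / 2 * Real.log (4 * m) := ⟨_, rfl⟩
  refine ⟨8 + Real.exp P, by linarith [Real.exp_pos P], ?_⟩
  intro N μ hN hμ hμM y v hy hv
  have gp := gaf_GP hm hN hμ
  have hs : ∀ t : ℝ, 1 ≤ (3 / 2 + (t : ℂ) * I).re := fun t => by simp; norm_num
  have hpos : ∀ t : ℝ, 0 < ‖gaf N μ (3 / 2 + (t : ℂ) * I)‖ := fun t => norm_pos_iff.2 (gp.ne _ (hs t))
  have hall : ∀ t : ℝ, -(gaD N μ (3 / 2 + t * I)).im ≤ 6 * m := fun t => by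
    have := gp.im _ (hs t)
    rw [abs_le] at this
    linarith [this.1]
  have hbig : ∀ t : ℝ, Y1 ≤ t → -(gaD N μ (3 / 2 + t * I)).im ≤ -(1 / 4) := fun t ht => by
    have := HY N μ hμ hμM t ht
    linarith
  -- the gamma factor
  have hlog : Real.log (‖gaf N μ (3 / 2 + ((y + v : ℝ) : ℂ) * I)‖ ^ 2) ≤
      Real.log (‖gaf N μ (3 / 2 + (y : ℂ) * I)‖ ^ 2) + 2 * (κ - v / 4) := by
    rcases le_total Y1 y with h1 | h1
    · have h2 := log_bound hm hN hμ (a := y) (b := y + v) (κ := -(1 / 4)) (by linarith)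
        (fun t ht => hbig t (h1.trans ht.1))
      have e : 2 * -(1 / 4 : ℝ) * (y + v - y) = 2 * (0 - v / 4) := by ring
      rw [e] at h2
      linarith
    · rcases le_total (y + v) Y1 with h2 | h2
      · have h3 := log_bound hm hN hμ (a := y) (b := y + v) (κ := 6 * m) (by linarith)
          (fun t _ => hall t)
        have h4 : (6 * (m : ℝ) + 1 / 4) * v ≤ κ := by
          rw [hκ]
          exact mul_le_mul_of_nonneg_left (by linarith) (by positivity)
        have e : 2 * (6 * (m : ℝ)) * (y + v - y) = 2 * ((6 * m + 1 / 4) * v - v / 4) := by ring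
        rw [e] at h3
        linarith
      · have h3 := log_bound hm hN hμ (a := y) (b := Y1) (κ := 6 * m) h1 (fun t _ => hall t)
        have h4 := log_bound hm hN hμ (a := Y1) (b := y + v) (κ := -(1 / 4)) h2
          (fun t ht => hbig t ht.1)
        have h5 : (6 * (m : ℝ) + 1 / 4) * (Y1 - y) ≤ κ := by
          rw [hκ]
          exact mul_le_mul_of_nonneg_left (by linarith) (by positivity)
        have e : 2 * (6 * (m : ℝ)) * (Y1 - y) + 2 * -(1 / 4) * (y + v - Y1) =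
            2 * ((6 * m + 1 / 4) * (Y1 - y) - v / 4) := by ring
        linarith
  have hgam : ‖gaf N μ (3 / 2 + ((y + v : ℝ) : ℂ) * I)‖ ≤
      Real.exp (κ - v / 4) * ‖gaf N μ (3 / 2 + (y : ℂ) * I)‖ := by
    rw [Real.log_pow, Real.log_pow] at hlog
    push_cast at hlog
    have h1 : Real.log ‖gaf N μ (3 / 2 + ((y : ℂ) + v) * I)‖ ≤
        Real.log ‖gaf N μ (3 / 2 + (y : ℂ) * I)‖ + (κ - v / 4) := by linarith
    have hp := hpos (y + v)
    push_cast at hp ⊢
    calc _ = Real.exp (Real.log ‖gaf N μ (3 / 2 + ((y : ℂ) + v) * I)‖) := (Real.exp_log hp).symm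
      _ ≤ Real.exp (Real.log ‖gaf N μ (3 / 2 + (y : ℂ) * I)‖ + (κ - v / 4)) := Real.exp_le_exp.2 h1
      _ = _ := by rw [Real.exp_add, Real.exp_log (hpos y)]; ring
  -- the slope
  have hel : el N μ y ≤ el N μ (y + v) + 12 * m + m / 2 * Real.log (1 + v) := by
    have h1 := (el_bd hN hμ y).2
    have h2 := (el_bd hN hμ (y + v)).1
    have h3 := logm_shift hN μ (y := y) (y' := y + v) (R := v) (by simp)
    rw [abs_of_nonneg hv] at h3
    linarith
  have hlogv : m / 2 * Real.log (1 + v) ≤ v / 8 + 1 / 8 + m / 2 * Real.log (4 * m) := by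
    have h1 : Real.log (1 + v) ≤ (1 + v) / (4 * m) + Real.log (4 * m) := by
      have h2 := Real.log_le_sub_one_of_pos (show 0 < (1 + v) / (4 * (m : ℝ)) by positivity)
      rw [Real.log_div (by linarith) (by positivity)] at h2
      linarith
    have h2 : (m : ℝ) / 2 * Real.log (1 + v) ≤ m / 2 * ((1 + v) / (4 * m) + Real.log (4 * m)) :=
      mul_le_mul_of_nonneg_left h1 (by positivity)
    have e : (m : ℝ) / 2 * ((1 + v) / (4 * m) + Real.log (4 * m)) =
        v / 8 + 1 / 8 + m / 2 * Real.log (4 * m) := by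
      field_simp
      ring
    rw [e] at h2
    exact h2
  have hgg : ∀ t : ℝ, gg N μ t = ‖gaf N μ (3 / 2 + t * I)‖ * Real.exp (-el N μ t) := fun t => rfl
  have hg0 : 0 < gg N μ y := by
    rw [hgg]
    have := hpos y
    positivity
  have h1 : gg N μ (y + v) ≤ Real.exp P * Real.exp (-v / 8) * gg N μ y := by
    rw [hgg, hgg]
    calc ‖gaf N μ (3 / 2 + ((y + v : ℝ) : ℂ) * I)‖ * Real.exp (-el N μ (y + v)) ≤
        (Real.exp (κ - v / 4) * ‖gaf N μ (3 / 2 + (y : ℂ) * I)‖) *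
          Real.exp (-el N μ y + 12 * m + m / 2 * Real.log (1 + v)) := by
          refine mul_le_mul hgam (Real.exp_le_exp.2 (by linarith)) (Real.exp_pos _).le (by positivity)
      _ = Real.exp (κ - v / 4 + 12 * m + m / 2 * Real.log (1 + v)) *
          (‖gaf N μ (3 / 2 + (y : ℂ) * I)‖ * Real.exp (-el N μ y)) := by
          rw [show -el N μ y + 12 * m + m / 2 * Real.log (1 + v) =
            (12 * m + m / 2 * Real.log (1 + v)) + -el N μ y by ring, Real.exp_add,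
            show κ - v / 4 + 12 * m + m / 2 * Real.log (1 + v) =
            (κ - v / 4) + (12 * m + m / 2 * Real.log (1 + v)) by ring, Real.exp_add (κ - v / 4)]
          ring
      _ ≤ (Real.exp P * Real.exp (-v / 8)) *
          (‖gaf N μ (3 / 2 + (y : ℂ) * I)‖ * Real.exp (-el N μ y)) := by
          refine mul_le_mul_of_nonneg_right ?_ (by positivity)
          rw [← Real.exp_add]
          apply Real.exp_le_exp.2
          rw [hP]
          linarith
      _ = _ := by ring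
  refine h1.trans (mul_le_mul_of_nonneg_right ?_ hg0.le)
  refine mul_le_mul (by linarith) (Real.exp_le_exp.2 ?_) (Real.exp_pos _).le
    (by linarith [Real.exp_pos P])
  rw [neg_div, neg_div, neg_le_neg_iff]
  exact div_le_div_of_nonneg_left hv (by norm_num) (by linarith [Real.exp_pos P])

end Pool.Agent.Q251.DS.HD
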