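import Pool.Agent.Q260.DS.Stm
import Pool.Agent.H31R2.DH.Back

set_option autoImplicit false

/-! # Project DS, job RT: the right region -/

namespace Pool.Agent.Q251.DS

open Complex Filter Topology Metric Set
open Pool.Agent.Q260.DS

lemma It_diff {f : ℂ → ℂ} (hf : Differentiable ℂ f) : ∀ cs : List ℝ, Differentiable ℂ (It f cs)
  | [] => hf
  | c :: cs => by
    intro z
    have h := It_diff hf cs
    have h1 : DifferentiableAt ℂ (deriv (It f cs)) z := (h.analyticAt z).deriv.differentiableAt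
    exact h1.sub ((h z).const_mul _)

/-- the logarithmic derivative at the centre -/
lemma ld_bound {g : ℂ → ℂ} {c : ℂ} {r B : ℝ} (hr : 0 < r) (hB : 0 ≤ B)
    (hg : AnalyticOnNhd ℂ g (ball c r)) (hg0 : ∀ z ∈ ball c r, g z ≠ 0)
    (hb : ∀ z ∈ ball c r, ‖g z‖ ≤ Real.exp B * ‖g c‖) : ‖logDeriv g c‖ ≤ 8 * (B + 1) / r := by
  obtain ⟨h, hh, hhc, hgh⟩ := DH31.exists_log hr hg hg0
  have hcr : c ∈ ball c r := mem_ball_self hr
  have h1 : ∀ w ∈ sphere c (r / 2), ‖h w‖ ≤ 4 * (B + 1) := by
    intro w hw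
    have := DH31.bc_log (r := r) (r' := 3 * r / 4) (r1 := r / 2) (B := B) (by positivity)
      (by linarith) (by linarith) hB (hg0 c hcr) hh hhc hgh
      (fun z hz => hb z (ball_subset_ball (by linarith) hz)) (sphere_subset_closedBall hw)
    refine this.trans (le_of_eq ?_)
    field_simp
    norm_num
  have hd : DiffContOnCl ℂ h (ball c (r / 2)) := by
    apply DifferentiableOn.diffContOnCl
    rw [closure_ball _ (by positivity)]
    exact hh.mono (closedBall_subset_ball (by linarith))
  have h2 := Complex.norm_deriv_le_of_forall_mem_sphere_norm_le (f := h) (c := c) (R := r / 2)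
    (C := 4 * (B + 1)) (by positivity) hd h1
  have h3 : HasDerivAt h (deriv h c) c :=
    (hh.differentiableAt (isOpen_ball.mem_nhds hcr)).hasDerivAt
  have h4 : HasDerivAt (fun w => g c * cexp (h w)) (g c * (cexp (h c) * deriv h c)) c :=
    (h3.cexp).const_mul _
  have h5 : g =ᶠ[𝓝 c] fun w => g c * cexp (h w) := by
    filter_upwards [isOpen_ball.mem_nhds hcr] with w hw
    exact hgh w hw
  have h6 : logDeriv g c = deriv h c := by
    rw [logDeriv_apply, h5.deriv_eq, h4.deriv, hhc, Complex.exp_zero, one_mul]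
    field_simp [hg0 c hcr]
  rw [h6]
  refine h2.trans (le_of_eq ?_)
  field_simp
  ring

lemma near {z w : ℂ} {r : ℝ} (h : ‖w - z‖ ≤ r) : z.re - r ≤ w.re ∧ w.re ≤ z.re + r ∧
    z.im - r ≤ w.im ∧ w.im ≤ z.im + r := by
  have h1 := abs_re_le_norm (w - z)
  have h2 := abs_im_le_norm (w - z)
  rw [sub_re, abs_le] at h1
  rw [sub_im, abs_le] at h2
  refine ⟨?_, ?_, ?_, ?_⟩ <;> linarith [h1.1, h1.2, h2.1, h2.2]

lemma log3 {K v : ℝ} (hK : 1 ≤ K) (hv : |v| ≤ 1) : K * Real.log (2 + |v|) ≤ 2 * K := by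
  have h1 : Real.log (2 + |v|) ≤ 2 := by
    have := Real.log_le_sub_one_of_pos (show 0 < 2 + |v| by positivity)
    linarith
  nlinarith

/-- heights at distance at most one -/
lemma l_near {K A y0 : ℝ} {f : ℂ → ℂ} {l g : ℝ → ℝ} (hK : 1 ≤ K) (h : Sys K A y0 f l g) {y y' : ℝ}
    (hy : |y' - y| ≤ 1) : |l y' - l y| ≤ 2 * K := by
  have h1 := h.shift y (y' - y)
  rw [add_sub_cancel] at h1
  exact h1.trans (log3 hK hy)

lemma xiy (z : ℂ) : ((z.re : ℝ) : ℂ) + I * ((z.im : ℝ) : ℂ) = z := by
  apply Complex.ext <;> simp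

/-- base case -/
lemma rt0 {K A y0 : ℝ} {f : ℂ → ℂ} {l g : ℝ → ℝ} (hK : 1 ≤ K) (h : Sys K A y0 f l g)
    {a B r K' : ℝ} (ha : 3 / 2 < a) (hr : r = min 1 (a - 3 / 2)) (hK' : K' = K * (1 + (|B| + 1) ^ 2))
    {x y : ℝ} (hx : a ≤ x) (hxB : x ≤ B) :
    f (x + I * y) ≠ 0 ∧ ‖logDeriv f (x + I * y) - (l y : ℂ)‖ ≤ 8 * (2 * K' + 1) / r ∧
      g y * Real.exp (l y * x) * Real.exp (-K') ≤ ‖f (x + I * y)‖ ∧
      ‖f (x + I * y)‖ ≤ g y * Real.exp (l y * x) * Real.exp K' := by
  have hr0 : 0 < r := by
    rw [hr]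
    exact lt_min one_pos (by linarith)
  have hr1 : r ≤ 1 := by rw [hr]; exact min_le_left _ _
  have hra : r ≤ a - 3 / 2 := by rw [hr]; exact min_le_right _ _
  have hx0 : 0 < x := by linarith
  have hxabs : |x| ≤ |B| := by
    rw [abs_of_pos hx0]
    exact hxB.trans (le_abs_self B)
  obtain ⟨c, hc⟩ : ∃ c : ℂ, c = (x : ℂ) + I * (y : ℂ) := ⟨_, rfl⟩
  -- sizes in the ball
  have hsz : ∀ w ∈ ball c r, g y * Real.exp (l y * (w - I * y).re) * Real.exp (-K') ≤ ‖f w‖ ∧
      ‖f w‖ ≤ g y * Real.exp (l y * (w - I * y).re) * Real.exp K' := by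
    intro w hw
    rw [mem_ball, dist_eq_norm] at hw
    obtain ⟨u, hu⟩ : ∃ u : ℂ, u = w - I * y := ⟨_, rfl⟩
    have hux : ‖u - x‖ < r := by
      have e : u - x = w - c := by rw [hu, hc]; ring
      rwa [e]
    have hure : 3 / 2 ≤ u.re := by
      have := (abs_re_le_norm (u - x)).trans_lt hux
      rw [sub_re, ofReal_re, abs_lt] at this
      linarith [this.1]
    have hun : ‖u‖ ≤ |B| + 1 := by
      have e : u = (u - x) + x := by ring
      calc ‖u‖ = ‖(u - x) + x‖ := by rw [← e]
        _ ≤ ‖u - x‖ + ‖(x : ℂ)‖ := norm_add_le _ _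
        _ ≤ 1 + |B| := by
          rw [Complex.norm_real, Real.norm_eq_abs]
          linarith
        _ = |B| + 1 := by ring
    have hK2 : K * (1 + ‖u‖ ^ 2) ≤ K' := by
      rw [hK']
      have : ‖u‖ ^ 2 ≤ (|B| + 1) ^ 2 := pow_le_pow_left₀ (norm_nonneg _) hun 2
      nlinarith
    have e1 : w = u + I * y := by rw [hu]; ring
    have h1 := h.up y u
    have h2 := h.lo y u hure
    have hmax : max |u.re| (3 / 2) = u.re := by
      rw [abs_of_nonneg (by linarith)]
      exact max_eq_left hure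
    rw [hmax, ← e1] at h1
    rw [← e1] at h2
    rw [← hu]
    have hg := h.pos y
    constructor
    · refine le_trans ?_ h2
      rw [mul_assoc, ← Real.exp_add]
      refine mul_le_mul_of_nonneg_left (Real.exp_le_exp.2 ?_) hg.le
      linarith
    · refine h1.trans ?_
      rw [mul_assoc, ← Real.exp_add]
      refine mul_le_mul_of_nonneg_left (Real.exp_le_exp.2 ?_) hg.le
      linarith
  have hne : ∀ w ∈ ball c r, f w ≠ 0 := by
    intro w hw h0
    have h1 := (hsz w hw).1
    rw [h0, norm_zero] at h1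
    have := h.pos y
    have : 0 < g y * Real.exp (l y * (w - I * y).re) * Real.exp (-K') := by positivity
    linarith
  have hcb : c ∈ ball c r := mem_ball_self hr0
  have hcre : (c - I * y).re = x := by rw [hc]; simp
  obtain ⟨H, hH⟩ : ∃ H : ℂ → ℂ, H = fun w => f w * cexp (-(l y : ℂ) * w) := ⟨_, rfl⟩
  have hHd : Differentiable ℂ H := by
    rw [hH]
    exact h.diff.mul (by fun_prop)
  have hnorm : ∀ w : ℂ, ‖H w‖ = ‖f w‖ * Real.exp (-(l y * (w - I * y).re)) := by
    intro w
    rw [hH]
    simp only [norm_mul, Complex.norm_exp]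
    congr 2
    simp
  have hHb : ∀ w ∈ ball c r, g y * Real.exp (-K') ≤ ‖H w‖ ∧ ‖H w‖ ≤ g y * Real.exp K' := by
    intro w hw
    obtain ⟨h1, h2⟩ := hsz w hw
    rw [hnorm]
    have e : ∀ t : ℝ, g y * Real.exp (l y * (w - I * y).re) * t *
        Real.exp (-(l y * (w - I * y).re)) = g y * t := by
      intro t
      have : Real.exp (l y * (w - I * y).re) * Real.exp (-(l y * (w - I * y).re)) = 1 := by
        rw [← Real.exp_add]; simp
      calc _ = g y * t * (Real.exp (l y * (w - I * y).re) * Real.exp (-(l y * (w - I * y).re))) := by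
            ring
        _ = g y * t := by rw [this, mul_one]
    constructor
    · rw [← e]
      exact mul_le_mul_of_nonneg_right h1 (Real.exp_pos _).le
    · rw [← e (Real.exp K')]
      exact mul_le_mul_of_nonneg_right h2 (Real.exp_pos _).le
  have hHne : ∀ w ∈ ball c r, H w ≠ 0 := by
    intro w hw
    rw [hH]
    exact mul_ne_zero (hne w hw) (Complex.exp_ne_zero _)
  have hK'0 : 0 ≤ K' := by rw [hK']; positivity
  have hld := ld_bound (g := H) (c := c) (r := r) (B := 2 * K') hr0 (by linarith)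
    (fun w _ => hHd.analyticAt w) hHne (fun w hw => by
      have h1 := (hHb w hw).2
      have h2 := (hHb c hcb).1
      have e : g y * Real.exp K' = Real.exp (2 * K') * (g y * Real.exp (-K')) := by
        have : Real.exp K' = Real.exp (2 * K') * Real.exp (-K') := by
          rw [← Real.exp_add]; ring_nf
        rw [this]
        ring
      rw [e] at h1
      exact h1.trans (mul_le_mul_of_nonneg_left h2 (Real.exp_pos _).le))
  have hldH : logDeriv H c = logDeriv f c - (l y : ℂ) := by
    have e1 := logDeriv_mul (f := f) (g := fun w => cexp (-(l y : ℂ) * w)) c (hne c hcb)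
      (Complex.exp_ne_zero _) (h.diff c) (by fun_prop)
    rw [hH, e1, sub_eq_add_neg]
    congr 1
    rw [logDeriv_apply]
    have e2 : HasDerivAt (fun w : ℂ => cexp (-(l y : ℂ) * w))
        (cexp (-(l y : ℂ) * c) * (-(l y : ℂ) * 1)) c := ((hasDerivAt_id c).const_mul _).cexp
    rw [e2.deriv]
    field_simp [Complex.exp_ne_zero]
  have hs := hsz c hcb
  rw [hcre] at hs
  rw [hldH] at hld
  rw [hc] at hld hs
  refine ⟨?_, hld, hs.1, hs.2⟩
  rw [← hc]
  exact hne c hcb

theorem t_RT : S_RT := by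
  intro K A a B k hK hA ha
  induction k generalizing a B with
  | zero =>
    obtain ⟨r, hr⟩ : ∃ r : ℝ, r = min 1 (a - 3 / 2) := ⟨_, rfl⟩
    obtain ⟨K', hK'⟩ : ∃ K' : ℝ, K' = K * (1 + (|B| + 1) ^ 2) := ⟨_, rfl⟩
    have hr0 : 0 < r := by
      rw [hr]
      exact lt_min one_pos (by linarith)
    have hK'0 : 0 ≤ K' := by rw [hK']; positivity
    have hE : 1 ≤ Real.exp K' := Real.one_le_exp hK'0
    have hq : 0 ≤ 8 * (2 * K' + 1) / r := by positivity
    refine ⟨Real.exp K' + 8 * (2 * K' + 1) / r, by linarith, ?_⟩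
    intro y0 f l g h cs hcs x y hl hx hxB
    have hcs0 : cs = [] := List.length_eq_zero_iff.1 hcs.1
    subst hcs0
    obtain ⟨h1, h2, h3, h4⟩ := rt0 hK h ha hr hK' (x := x) (y := y) hx hxB
    have hg := h.pos y
    have hN : Nm l g 0 y x = g y * Real.exp (l y * x) := by simp [Nm]
    have hN0 : 0 < g y * Real.exp (l y * x) := by positivity
    refine ⟨h1, h2.trans (by linarith), ?_, ?_⟩
    · rw [hN]
      refine le_trans ?_ h3
      rw [div_eq_mul_inv, Real.exp_neg]
      refine mul_le_mul_of_nonneg_left ?_ hN0.le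
      exact inv_anti₀ (Real.exp_pos _) (by linarith)
    · rw [hN]
      refine le_trans h4 ?_
      rw [mul_comm (Real.exp K' + _)]
      exact mul_le_mul_of_nonneg_left (by linarith) hN0.le
  | succ k ih =>
    obtain ⟨C', hC', H⟩ := ih ((a + 3 / 2) / 2) (B + 1) (by linarith)
    obtain ⟨r, hr⟩ : ∃ r : ℝ, r = min 1 ((a - 3 / 2) / 2) := ⟨_, rfl⟩
    have hr0 : 0 < r := by
      rw [hr]
      exact lt_min one_pos (by linarith)
    have hr1 : r ≤ 1 := by rw [hr]; exact min_le_left _ _
    have hra : r ≤ (a - 3 / 2) / 2 := by rw [hr]; exact min_le_right _ _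
    have hq : 0 ≤ 2 * (C' + 2 * K) / r := by positivity
    refine ⟨3 * C' + 2 * (C' + 2 * K) / r + 2 * A + 2 * K, by linarith, ?_⟩
    intro y0 f l g h cs hcs x y hl hx hxB
    obtain ⟨hlen, hcsA⟩ := hcs
    cases cs with
    | nil => simp at hlen
    | cons c0 cs =>
    have hcs' : Li A k cs := ⟨by simpa using hlen, fun c hc => hcsA c (List.mem_cons_of_mem _ hc)⟩
    have hc0 : |c0| ≤ A := hcsA c0 List.mem_cons_self
    obtain ⟨G, hG⟩ : ∃ G : ℂ → ℂ, G = It f cs := ⟨_, rfl⟩
    have hGd : Differentiable ℂ G := by rw [hG]; exact It_diff h.diff cs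
    have hG1 : It f (c0 :: cs) = fun z => deriv G z - (c0 : ℂ) * G z := by rw [hG]; rfl
    obtain ⟨z, hz⟩ : ∃ z : ℂ, z = (x : ℂ) + I * (y : ℂ) := ⟨_, rfl⟩
    have hzre : z.re = x := by rw [hz]; simp
    have hzim : z.im = y := by rw [hz]; simp
    have hly : 0 < l y := by linarith
    -- the closed ball
    have hball : ∀ w ∈ closedBall z r, G w ≠ 0 ∧ ‖logDeriv G w - (l y : ℂ)‖ ≤ C' + 2 * K := by
      intro w hw
      rw [mem_closedBall, dist_eq_norm] at hw
      obtain ⟨n1, n2, n3, n4⟩ := near hw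
      rw [hzre] at n1 n2
      rw [hzim] at n3 n4
      have hd : |w.im - y| ≤ 1 := by
        rw [abs_le]
        constructor <;> linarith
      have hl1 := l_near hK h hd
      have hl2 := abs_le.1 hl1
      obtain ⟨p1, p2, -, -⟩ := H y0 f l g h cs hcs' w.re w.im (by linarith [hl2.1]) (by linarith)
        (by linarith)
      rw [xiy, ← hG] at p1 p2
      refine ⟨p1, ?_⟩
      have e : logDeriv G w - (l y : ℂ) = (logDeriv G w - (l w.im : ℂ)) + ((l w.im - l y : ℝ) : ℂ) := by
        push_cast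
        ring
      rw [e]
      refine (norm_add_le _ _).trans (add_le_add p2 ?_)
      rw [Complex.norm_real, Real.norm_eq_abs]
      exact hl1
    have hzb : z ∈ closedBall z r := mem_closedBall_self hr0.le
    obtain ⟨p1, p2, p3, p4⟩ := H y0 f l g h cs hcs' x y (by linarith) (by linarith) (by linarith)
    rw [← hG, ← hz] at p1 p2 p3 p4
    -- derivative of the logarithmic derivative
    have hqan : ∀ w ∈ closedBall z r, AnalyticAt ℂ (logDeriv G) w := fun w hw =>
      (hGd.analyticAt w).deriv.div (hGd.analyticAt w) (hball w hw).1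
    have hcau : ‖deriv (logDeriv G) z‖ ≤ (C' + 2 * K) / r := by
      have e : deriv (logDeriv G) z = deriv (fun w => logDeriv G w - (l y : ℂ)) z := by
        rw [deriv_sub_const]
      rw [e]
      refine Complex.norm_deriv_le_of_forall_mem_sphere_norm_le hr0 ?_ fun w hw =>
        (hball w (sphere_subset_closedBall hw)).2
      apply DifferentiableOn.diffContOnCl
      rw [closure_ball _ hr0.ne']
      intro w hw
      exact ((hqan w hw).differentiableAt.sub_const _).differentiableWithinAt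
    obtain ⟨q, hqd⟩ : ∃ q : ℂ, q = logDeriv G z - (c0 : ℂ) := ⟨_, rfl⟩
    have hq1 : ‖q - (l y : ℂ)‖ ≤ C' + A := by
      have e : q - (l y : ℂ) = (logDeriv G z - (l y : ℂ)) - (c0 : ℂ) := by rw [hqd]; ring
      rw [e]
      refine (norm_sub_le _ _).trans (add_le_add p2 ?_)
      rw [Complex.norm_real, Real.norm_eq_abs]
      exact hc0
    have hlyn : ‖(l y : ℂ)‖ = l y := by
      rw [Complex.norm_real, Real.norm_of_nonneg hly.le]
    have hq2 : l y / 2 ≤ ‖q‖ := by
      have e : (l y : ℂ) = q - (q - (l y : ℂ)) := by ring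
      have := norm_sub_le q (q - (l y : ℂ))
      rw [← e, hlyn] at this
      linarith
    have hq3 : ‖q‖ ≤ 2 * l y := by
      have e : q = (q - (l y : ℂ)) + (l y : ℂ) := by ring
      have := norm_add_le (q - (l y : ℂ)) (l y : ℂ)
      rw [← e, hlyn] at this
      linarith
    have hq0 : q ≠ 0 := by
      intro h0
      rw [h0, norm_zero] at hq2
      linarith
    have hprod : ∀ w : ℂ, G w ≠ 0 → deriv G w - (c0 : ℂ) * G w = G w * (logDeriv G w - (c0 : ℂ)) := by
      intro w hw
      rw [logDeriv_apply]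
      field_simp
    have hval : It f (c0 :: cs) z = G z * q := by
      rw [hG1, hqd]
      exact hprod z p1
    have hev : It f (c0 :: cs) =ᶠ[𝓝 z] fun w => G w * (logDeriv G w - (c0 : ℂ)) := by
      filter_upwards [ball_mem_nhds z hr0] with w hw
      rw [hG1]
      exact hprod w (hball w (ball_subset_closedBall hw)).1
    have hld : logDeriv (It f (c0 :: cs)) z = logDeriv G z + deriv (logDeriv G) z / q := by
      rw [logDeriv_apply, hev.deriv_eq, hev.eq_of_nhds, ← logDeriv_apply]
      have e1 := logDeriv_mul (f := G) (g := fun w => logDeriv G w - (c0 : ℂ)) z p1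
        (by rw [← hqd]; exact hq0) (hGd z) ((hqan z hzb).differentiableAt.sub_const _)
      rw [e1]
      congr 1
      rw [logDeriv_apply, deriv_sub_const, ← hqd]
    rw [← hz, hval, hld]
    refine ⟨mul_ne_zero p1 hq0, ?_, ?_, ?_⟩
    · have e : logDeriv G z + deriv (logDeriv G) z / q - (l y : ℂ) =
          (logDeriv G z - (l y : ℂ)) + deriv (logDeriv G) z / q := by ring
      rw [e]
      have h5 : ‖deriv (logDeriv G) z / q‖ ≤ 2 * (C' + 2 * K) / r := by
        rw [norm_div, div_le_iff₀ (by linarith)]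
        have h6 : (C' + 2 * K) / r ≤ 2 * (C' + 2 * K) / r * ‖q‖ := by
          have e2 : 2 * (C' + 2 * K) / r * ‖q‖ = (C' + 2 * K) / r * (2 * ‖q‖) := by ring
          rw [e2]
          have h7 : 0 ≤ (C' + 2 * K) / r := by positivity
          nlinarith
        exact hcau.trans h6
      refine (norm_add_le _ _).trans ?_
      linarith
    · rw [norm_mul]
      have hN : Nm l g (k + 1) y x = Nm l g k y x * l y := by
        unfold Nm
        rw [pow_succ]
        ring
      have hN0 : 0 ≤ Nm l g k y x := by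
        unfold Nm
        have := h.pos y
        positivity
      rw [hN]
      calc Nm l g k y x * l y / (3 * C' + 2 * (C' + 2 * K) / r + 2 * A + 2 * K) ≤
            Nm l g k y x * l y / (2 * C') := by
              apply div_le_div_of_nonneg_left (by positivity) (by positivity)
              linarith
        _ = Nm l g k y x / C' * (l y / 2) := by field_simp
        _ ≤ ‖G z‖ * ‖q‖ := mul_le_mul p3 hq2 (by positivity) (norm_nonneg _)
    · rw [norm_mul]
      have hN : Nm l g (k + 1) y x = Nm l g k y x * l y := by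
        unfold Nm
        rw [pow_succ]
        ring
      have hN0 : 0 ≤ Nm l g k y x := by
        unfold Nm
        have := h.pos y
        positivity
      rw [hN]
      calc ‖G z‖ * ‖q‖ ≤ (C' * Nm l g k y x) * (2 * l y) :=
            mul_le_mul p4 hq3 (norm_nonneg _) (by positivity)
        _ = (2 * C') * (Nm l g k y x * l y) := by ring
        _ ≤ _ := mul_le_mul_of_nonneg_right (by linarith) (by positivity)

end Pool.Agent.Q251.DS
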