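import Pool.Agent.Q260.DS.Stm

set_option autoImplicit false

/-! # Project DS, job VI: vertical integration -/

namespace Pool.Agent.Q251.DS.VI

open Complex Filter Topology Metric Set
open Pool.Agent.Q260.DS

lemma EE_nonneg {C L δ : ℝ} (hC : 1 ≤ C) (hL : 0 ≤ L) : 0 ≤ EE C L δ := by
  unfold EE
  have := Real.rpow_nonneg hL (1 - δ / C)
  positivity

lemma EE_mono {C C' L δ : ℝ} (hC : 1 ≤ C) (hCC : C ≤ C') (hL : 1 ≤ L) (hδ : 0 < δ) :
    EE C L δ ≤ EE C' L δ := by
  unfold EE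
  have hC0 : 0 < C' := by linarith
  have h1 : δ / C' ≤ δ / C := div_le_div_of_nonneg_left hδ.le (by linarith) hCC
  have h2 : L ^ (1 - δ / C) ≤ L ^ (1 - δ / C') :=
    Real.rpow_le_rpow_of_exponent_le hL (by linarith)
  have h3 : C / δ ^ 2 ≤ C' / δ ^ 2 := div_le_div_of_nonneg_right hCC (by positivity)
  exact mul_le_mul h3 h2 (Real.rpow_nonneg (by linarith) _) (by positivity)

lemma EE_two {C L M δ : ℝ} (hC : 1 ≤ C) (hL : 0 ≤ L) (hM : M ≤ 2 * L)
    (hM0 : 0 ≤ M) (hδ : 0 < δ) (hδ2 : δ ≤ 1 / 2) : EE C M δ ≤ 2 * EE C L δ := by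
  unfold EE
  have h1 : δ / C ≤ 1 := by
    rw [div_le_one (by linarith)]
    linarith
  have h2 : 0 ≤ δ / C := by positivity
  have h3 : M ^ (1 - δ / C) ≤ (2 * L) ^ (1 - δ / C) :=
    Real.rpow_le_rpow hM0 hM (by linarith)
  rw [Real.mul_rpow (by norm_num) hL] at h3
  have h4 : (2 : ℝ) ^ (1 - δ / C) ≤ 2 := by
    calc (2 : ℝ) ^ (1 - δ / C) ≤ 2 ^ (1 : ℝ) :=
        Real.rpow_le_rpow_of_exponent_le (by norm_num) (by linarith)
      _ = 2 := Real.rpow_one 2
  have h5 : 0 ≤ L ^ (1 - δ / C) := Real.rpow_nonneg hL _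
  have h6 : M ^ (1 - δ / C) ≤ 2 * L ^ (1 - δ / C) :=
    h3.trans (mul_le_mul_of_nonneg_right h4 h5)
  calc C / δ ^ 2 * M ^ (1 - δ / C) ≤ C / δ ^ 2 * (2 * L ^ (1 - δ / C)) :=
      mul_le_mul_of_nonneg_left h6 (by positivity)
    _ = 2 * (C / δ ^ 2 * L ^ (1 - δ / C)) := by ring

/-- tangent line -/
lemma log_le_line {t s : ℝ} (ht : 0 < t) (hs : 0 < s) : Real.log t ≤ t / s + Real.log s := by
  have h1 := Real.log_le_sub_one_of_pos (div_pos ht hs)
  rw [Real.log_div ht.ne' hs.ne'] at h1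
  linarith

lemma log_lin (K K1 : ℝ) (hK : 0 < K) (hK1 : 0 ≤ K1) : ∃ L5 : ℝ, 1 ≤ L5 ∧ ∀ L : ℝ, L5 ≤ L →
    K * Real.log (2 + K1 * L) ≤ L / 2 := by
  obtain ⟨s, hs⟩ : ∃ s : ℝ, s = 4 * K * (K1 + 1) := ⟨_, rfl⟩
  have hs0 : 0 < s := by rw [hs]; positivity
  refine ⟨max 1 (8 * (K * (2 / s + |Real.log s|))), le_max_left _ _, fun L hL => ?_⟩
  have hL1 : 1 ≤ L := (le_max_left _ _).trans hL
  have hL2 := (le_max_right _ _).trans hL
  have h1 := log_le_line (t := 2 + K1 * L) (s := s) (by positivity) hs0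
  have h2 : Real.log (2 + K1 * L) ≤ K1 * L / s + (2 / s + |Real.log s|) := by
    have := le_abs_self (Real.log s)
    have e : (2 + K1 * L) / s = K1 * L / s + 2 / s := by ring
    linarith
  have h3 : K * (K1 * L / s) ≤ L / 4 := by
    have e : K * (K1 * L / s) = K1 / (K1 + 1) * (L / 4) := by
      rw [hs]
      field_simp
    rw [e]
    have h4 : K1 / (K1 + 1) ≤ 1 := by
      rw [div_le_one (by linarith)]
      linarith
    nlinarith
  have h4 : K * Real.log (2 + K1 * L) ≤ K * (K1 * L / s) + K * (2 / s + |Real.log s|) := by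
    rw [← mul_add]
    exact mul_le_mul_of_nonneg_left h2 hK.le
  linarith

lemma from_log {a b E : ℝ} (ha : 0 < a) (hb : 0 < b) (h : |Real.log (a / b)| ≤ E) :
    a ≤ Real.exp E * b ∧ b ≤ Real.exp E * a := by
  have h1 := abs_le.1 h
  have hab : 0 < a / b := div_pos ha hb
  constructor
  · rw [← div_le_iff₀ hb]
    calc a / b = Real.exp (Real.log (a / b)) := (Real.exp_log hab).symm
      _ ≤ _ := Real.exp_le_exp.2 h1.2
  · have h2 : Real.log (b / a) ≤ E := by
      rw [Real.log_div hb.ne' ha.ne']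
      rw [Real.log_div ha.ne' hb.ne'] at h1
      linarith [h1.1]
    rw [← div_le_iff₀ ha]
    calc b / a = Real.exp (Real.log (b / a)) := (Real.exp_log (div_pos hb ha)).symm
      _ ≤ _ := Real.exp_le_exp.2 h2

theorem t_VI (h1 : S_GR) (h2 : S_LB) : S_VI := by
  intro K A k hK hA
  obtain ⟨C3, hC3, HG⟩ := h1 K A 2 k hK hA (by norm_num)
  obtain ⟨C1, hC1, HL⟩ := h2 K A (k + 1) hK hA
  obtain ⟨K1, hK1⟩ : ∃ K1 : ℝ, K1 = A * (2 * C3 + A) := ⟨_, rfl⟩
  have hK10 : 0 ≤ K1 := by rw [hK1]; positivity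
  obtain ⟨L5, hL51, hL5⟩ := log_lin K K1 (by linarith) hK10
  obtain ⟨P, hP⟩ : ∃ P : ℝ, P = Real.exp (1 + 2 * K * Real.log (4 * A * K)) := ⟨_, rfl⟩
  have hP0 : 0 < P := by rw [hP]; exact Real.exp_pos _
  obtain ⟨D, hD⟩ : ∃ D : ℝ, D = A * 2 ^ (k + 1) * P := ⟨_, rfl⟩
  have hD0 : 0 < D := by rw [hD]; positivity
  obtain ⟨C5, hC5⟩ : ∃ C5 : ℝ, C5 = 1 + 2 * A * D := ⟨_, rfl⟩
  have hC50 : 0 < C5 := by rw [hC5]; positivity
  refine ⟨2 * C1 + K1 + L5 + 4 + C5, by linarith, ?_⟩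
  intro y0 f l g hS c cs hcA hcs T θ δ hyT hlT hθ0 hθ1 hδ0 hδ2 hNZ
  obtain ⟨L, hL⟩ : ∃ L : ℝ, L = l T := ⟨_, rfl⟩
  rw [← hL] at hlT hNZ ⊢
  have hLa : L5 ≤ L := by linarith
  have hLb : 2 * C1 ≤ L := by linarith
  have hL1 : 1 ≤ L := by linarith
  have hLi : Li A (k + 1) (c :: cs) := by
    refine ⟨by simp [hcs.1], fun a ha => ?_⟩
    rcases List.mem_cons.1 ha with h | h
    · rw [h]; exact hcA
    · exact hcs.2 a h
  obtain ⟨F, hF⟩ : ∃ F : ℂ → ℂ, F = It f cs := ⟨_, rfl⟩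
  obtain ⟨G, hG⟩ : ∃ G : ℂ → ℂ, G = It f (c :: cs) := ⟨_, rfl⟩
  have hGF : ∀ w : ℂ, G w = deriv F w - (c : ℂ) * F w := by
    intro w
    rw [hG, hF]
    rfl
  obtain ⟨hFd, hFb⟩ := HG y0 f l g hS cs hcs
  rw [← hF] at hFd hFb ⊢
  rw [← hG] at hNZ ⊢
  obtain ⟨V, hV⟩ : ∃ V : ℝ, V = K1 * L := ⟨_, rfl⟩
  have hV0 : 0 ≤ V := by rw [hV]; positivity
  obtain ⟨x, hx⟩ : ∃ x : ℝ, x = θ + δ := ⟨_, rfl⟩
  have hx0 : 0 ≤ x := by linarith
  have hx2 : x ≤ 3 / 2 := by linarith
  obtain ⟨z, hz⟩ : ∃ z : ℂ, z = ((x : ℝ) : ℂ) + I * T := ⟨_, rfl⟩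
  rw [← hx, ← hz]
  have hpt : ∀ v : ℝ, z + I * v = ((x : ℝ) : ℂ) + I * ((T + v : ℝ) : ℂ) := by
    intro v
    rw [hz]
    push_cast
    ring
  -- the slope at height `T + v`
  have hlv : ∀ v : ℝ, 0 ≤ v → |l (T + v) - L| ≤ K * Real.log (2 + v) := by
    intro v hv
    have := hS.shift T v
    rwa [abs_of_nonneg hv, ← hL] at this
  have hlogV : ∀ v : ℝ, 0 ≤ v → v ≤ V → K * Real.log (2 + v) ≤ L / 2 := by
    intro v hv hvV
    refine le_trans ?_ (hL5 L hLa)
    refine mul_le_mul_of_nonneg_left (Real.log_le_log (by linarith) ?_) (by linarith)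
    rw [← hV]
    linarith
  have hl2 : ∀ v : ℝ, 0 ≤ v → v ≤ V → L / 2 ≤ l (T + v) ∧ l (T + v) ≤ 2 * L := by
    intro v hv hvV
    have h3 := abs_le.1 (hlv v hv)
    have h4 := hlogV v hv hvV
    constructor <;> linarith [h3.1, h3.2]
  obtain ⟨Nm1, hNm1⟩ : ∃ Nm1 : ℝ, Nm1 = Nm l g (k + 1) T x := ⟨_, rfl⟩
  have hgT := hS.pos T
  have hNm1' : Nm1 = g T * Real.exp (L * x) * L ^ (k + 1) := by rw [hNm1, hL]; rfl
  have hNm0 : 0 < Nm1 := by rw [hNm1']; positivity
  -- the bounds from LB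
  have hLB : ∀ v : ℝ, 0 ≤ v → v ≤ V → G (z + I * v) ≠ 0 ∧
      ‖G (z + I * v)‖ ≤ Real.exp (EE C1 (l (T + v)) δ) * Nm l g (k + 1) (T + v) x ∧
      Nm l g (k + 1) (T + v) x ≤ Real.exp (EE C1 (l (T + v)) δ) * ‖G (z + I * v)‖ := by
    intro v hv hvV
    obtain ⟨e1, e2⟩ := hl2 v hv hvV
    have hNZv : NZ (It f (c :: cs)) θ (T + v - 4) (T + v + 4) := by
      rw [← hG]
      intro w hw1 hw2 hw3 hw4
      refine hNZ w hw1 hw2 (by linarith) ?_
      have e3 : (2 * C1 + K1 + L5 + 4 + C5) * L = V + 4 * L + (2 * C1 + L5 + C5) * L := by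
        rw [hV]; ring
      have e4 : 0 ≤ (2 * C1 + L5 + C5) * L := by positivity
      rw [e3]
      linarith
    obtain ⟨p1, p2, -⟩ := HL y0 f l g hS (c :: cs) hLi (T + v) θ δ (by linarith) hθ0 hθ1 hδ0 hδ2
      hNZv x (by linarith) (by linarith)
    rw [← hpt, ← hG] at p1 p2
    have hn0 : 0 < Nm l g (k + 1) (T + v) x := by
      unfold Nm
      have := hS.pos (T + v)
      have : 0 < l (T + v) := by linarith
      positivity
    obtain ⟨q1, q2⟩ := from_log (norm_pos_iff.2 p1) hn0 p2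
    exact ⟨p1, q1, q2⟩
  obtain ⟨E2, hE2⟩ : ∃ E2 : ℝ, E2 = Real.exp (2 * EE C1 L δ) := ⟨_, rfl⟩
  have hE20 : 1 ≤ E2 := by
    rw [hE2]
    exact Real.one_le_exp (by
      have := EE_nonneg (δ := δ) hC1 (show 0 ≤ L by linarith)
      linarith)
  obtain ⟨B, hB⟩ : ∃ B : ℝ, B = D * E2 * Nm1 := ⟨_, rfl⟩
  have hB0 : 0 < B := by rw [hB]; positivity
  have hA0 : 0 < A := by linarith
  -- the size on the vertical line
  have hder : ∀ v : ℝ, 0 ≤ v → v ≤ V → ‖G (z + I * v)‖ ≤ B * Real.exp (-v / (2 * A)) := by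
    intro v hv hvV
    obtain ⟨-, e2, -⟩ := hLB v hv hvV
    obtain ⟨m1, m2⟩ := hl2 v hv hvV
    have hl0 : 0 ≤ l (T + v) := by linarith
    have e3 : Real.exp (EE C1 (l (T + v)) δ) ≤ E2 := by
      rw [hE2]
      exact Real.exp_le_exp.2 (EE_two hC1 (by linarith) m2 hl0 hδ0 hδ2)
    have e4 : g (T + v) ≤ A * Real.exp (-v / A) * g T := hS.dec T v hyT hv
    have e5 : l (T + v) ^ (k + 1) ≤ 2 ^ (k + 1) * L ^ (k + 1) := by
      rw [← mul_pow]
      exact pow_le_pow_left₀ hl0 m2 _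
    have e6 : Real.exp (l (T + v) * x) ≤ Real.exp (L * x) * Real.exp (2 * K * Real.log (2 + v)) := by
      rw [← Real.exp_add]
      apply Real.exp_le_exp.2
      have h3 := (abs_le.1 (hlv v hv)).2
      have h4 : 0 ≤ Real.log (2 + v) := Real.log_nonneg (by linarith)
      have h5 : 0 ≤ K * Real.log (2 + v) := by positivity
      nlinarith
    have e7 : Real.exp (-v / A) * Real.exp (2 * K * Real.log (2 + v)) ≤
        P * Real.exp (-v / (2 * A)) := by
      rw [hP, ← Real.exp_add, ← Real.exp_add]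
      apply Real.exp_le_exp.2
      have h3 := log_le_line (t := 2 + v) (s := 4 * A * K) (by linarith) (by positivity)
      have h4 : 2 * K * Real.log (2 + v) ≤ 2 * K * ((2 + v) / (4 * A * K) + Real.log (4 * A * K)) :=
        mul_le_mul_of_nonneg_left h3 (by linarith)
      have h5 : 2 * K * ((2 + v) / (4 * A * K) + Real.log (4 * A * K)) =
          1 / A + v / (2 * A) + 2 * K * Real.log (4 * A * K) := by
        field_simp
        ring
      have h6 : 1 / A ≤ 1 := by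
        rw [div_le_one hA0]
        exact hA
      have h7 : -v / A + v / (2 * A) = -v / (2 * A) := by
        field_simp
        ring
      linarith
    have hgv := hS.pos (T + v)
    calc ‖G (z + I * v)‖ ≤ Real.exp (EE C1 (l (T + v)) δ) * Nm l g (k + 1) (T + v) x := e2
      _ = Real.exp (EE C1 (l (T + v)) δ) *
          (g (T + v) * Real.exp (l (T + v) * x) * l (T + v) ^ (k + 1)) := rfl
      _ ≤ E2 * ((A * Real.exp (-v / A) * g T) *
          (Real.exp (L * x) * Real.exp (2 * K * Real.log (2 + v))) * (2 ^ (k + 1) * L ^ (k + 1))) := by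
          refine mul_le_mul e3 ?_ (by positivity) (by linarith)
          refine mul_le_mul ?_ e5 (by positivity) (by positivity)
          exact mul_le_mul e4 e6 (by positivity) (by positivity)
      _ = (Real.exp (-v / A) * Real.exp (2 * K * Real.log (2 + v))) *
          (E2 * A * 2 ^ (k + 1) * (g T * Real.exp (L * x) * L ^ (k + 1))) := by ring
      _ ≤ (P * Real.exp (-v / (2 * A))) *
          (E2 * A * 2 ^ (k + 1) * (g T * Real.exp (L * x) * L ^ (k + 1))) :=
          mul_le_mul_of_nonneg_right e7 (by positivity)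
      _ = B * Real.exp (-v / (2 * A)) := by
          rw [hB, hD, hNm1']
          ring
  have hnc : ∀ v : ℝ, ‖cexp (-(I * c) * v)‖ = 1 := by
    intro v
    rw [Complex.norm_exp]
    simp
  -- mean value inequality
  have hmv : ‖cexp (-(I * c) * V) * F (z + I * V) - F z‖ ≤ 2 * A * B := by
    have e1 : ∀ v : ℝ, HasDerivAt (fun u : ℝ => cexp (-(I * c) * u) * F (z + I * u) - F z)
        (cexp (-(I * c) * v) * (I * G (z + I * v))) v := by
      intro v
      have e2 : HasDerivAt F (deriv F (z + I * v)) (z + I * v) := (hFd _).hasDerivAt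
      have e3 : HasDerivAt (fun u : ℝ => z + I * (u : ℂ)) I v := by
        have := ((Complex.ofRealCLM.hasDerivAt (x := v)).const_mul I).const_add z
        simpa using this
      have e4 : HasDerivAt (fun u : ℝ => F (z + I * u)) (I • deriv F (z + I * v)) v :=
        HasDerivAt.scomp_of_eq v e2 e3 rfl
      have e5 : HasDerivAt (fun u : ℝ => -(I * c) * (u : ℂ)) (-(I * c)) v := by
        have := (Complex.ofRealCLM.hasDerivAt (x := v)).const_mul (-(I * (c : ℂ)))
        simpa using this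
      have e6 := ((e5.cexp).mul e4).sub_const (F z)
      refine e6.congr_deriv ?_
      rw [hGF, smul_eq_mul]
      ring
    have e2 := image_norm_le_of_norm_deriv_right_le_deriv_boundary
      (f := fun u : ℝ => cexp (-(I * c) * u) * F (z + I * u) - F z)
      (f' := fun v : ℝ => cexp (-(I * c) * v) * (I * G (z + I * v)))
      (a := 0) (b := V) (B := fun v => 2 * A * B * (1 - Real.exp (-v / (2 * A))))
      (B' := fun v => B * Real.exp (-v / (2 * A)))
      (fun v hv => (e1 v).continuousAt.continuousWithinAt)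
      (fun v hv => (e1 v).hasDerivWithinAt) (by simp)
      (fun v => by
        have e3 : HasDerivAt (fun v : ℝ => -v / (2 * A)) (-1 / (2 * A)) v := by
          exact ((hasDerivAt_id v).neg).div_const (2 * A)
        have e4 := ((e3.exp).const_sub 1).const_mul (2 * A * B)
        refine e4.congr_deriv ?_
        field_simp)
      (fun v hv => by
        rw [norm_mul, norm_mul, Complex.norm_I, one_mul, hnc, one_mul]
        exact hder v hv.1 hv.2.le)
      (x := V) ⟨hV0, le_refl V⟩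
    refine e2.trans ?_
    have e3 : 0 ≤ Real.exp (-V / (2 * A)) := (Real.exp_pos _).le
    have e4 : 0 ≤ 2 * A * B := by positivity
    nlinarith
  -- the top
  have htop : ‖cexp (-(I * c) * V) * F (z + I * V)‖ ≤ Nm1 := by
    rw [norm_mul, hnc, one_mul]
    obtain ⟨m1, m2⟩ := hl2 V hV0 le_rfl
    have e1 := hFb (T + V) (by linarith) (x : ℂ) (by
      rw [Complex.norm_real, Real.norm_of_nonneg hx0]
      linarith)
    rw [← hpt] at e1
    have e4 : g (T + V) ≤ A * Real.exp (-V / A) * g T := hS.dec T V hyT hV0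
    have e5 : Real.exp (C3 * l (T + V)) ≤ Real.exp (2 * C3 * L) := by
      apply Real.exp_le_exp.2
      nlinarith
    have e6 : A * Real.exp (-V / A) * Real.exp (2 * C3 * L) ≤ 1 := by
      have h3 : A ≤ Real.exp (A * L) := by
        have := Real.add_one_le_exp (A * L)
        nlinarith
      calc A * Real.exp (-V / A) * Real.exp (2 * C3 * L) ≤
            Real.exp (A * L) * Real.exp (-V / A) * Real.exp (2 * C3 * L) := by gcongr
        _ = 1 := by
          rw [← Real.exp_add, ← Real.exp_add, hV, hK1]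
          have : A * L + -(A * (2 * C3 + A) * L) / A + 2 * C3 * L = 0 := by
            field_simp
            ring
          rw [this, Real.exp_zero]
    have e7 : g T ≤ Nm1 := by
      rw [hNm1', mul_assoc]
      have h3 : 1 ≤ Real.exp (L * x) := Real.one_le_exp (by positivity)
      have h4 : 1 ≤ L ^ (k + 1) := one_le_pow₀ hL1
      have h5 : 1 ≤ Real.exp (L * x) * L ^ (k + 1) := one_le_mul_of_one_le_of_one_le h3 h4
      nlinarith
    calc ‖F (z + I * V)‖ ≤ g (T + V) * Real.exp (C3 * l (T + V)) := e1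
      _ ≤ (A * Real.exp (-V / A) * g T) * Real.exp (2 * C3 * L) :=
          mul_le_mul e4 e5 (Real.exp_pos _).le (by positivity)
      _ = (A * Real.exp (-V / A) * Real.exp (2 * C3 * L)) * g T := by ring
      _ ≤ 1 * g T := mul_le_mul_of_nonneg_right e6 hgT.le
      _ ≤ Nm1 := by rw [one_mul]; exact e7
  have hF1 : ‖F z‖ ≤ C5 * (E2 * Nm1) := by
    have e1 : ‖F z‖ ≤ ‖cexp (-(I * c) * V) * F (z + I * V)‖ +
        ‖cexp (-(I * c) * V) * F (z + I * V) - F z‖ := by
      have : F z = cexp (-(I * c) * V) * F (z + I * V) -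
        (cexp (-(I * c) * V) * F (z + I * V) - F z) := by ring
      conv_lhs => rw [this]
      exact norm_sub_le _ _
    have e2 : Nm1 ≤ E2 * Nm1 := by nlinarith
    have e3 : 2 * A * B = 2 * A * D * (E2 * Nm1) := by
      rw [hB]; ring
    rw [hC5]
    linarith
  -- back to `G z`
  obtain ⟨g1, -, g3⟩ := hLB 0 le_rfl hV0
  have hz0 : z + I * ((0 : ℝ) : ℂ) = z := by simp
  have hT0' : T + 0 = T := add_zero T
  rw [hz0, hT0', ← hNm1, ← hL] at g3
  have hfin : ‖F z‖ ≤ C5 * Real.exp (3 * EE C1 L δ) * ‖G z‖ := by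
    have e1 : Real.exp (3 * EE C1 L δ) = E2 * Real.exp (EE C1 L δ) := by
      rw [hE2, ← Real.exp_add]
      congr 1
      ring
    calc ‖F z‖ ≤ C5 * (E2 * Nm1) := hF1
      _ ≤ C5 * (E2 * (Real.exp (EE C1 L δ) * ‖G z‖)) := by
          apply mul_le_mul_of_nonneg_left _ hC50.le
          apply mul_le_mul_of_nonneg_left g3 (by linarith)
      _ = _ := by rw [e1]; ring
  refine hfin.trans ?_
  have m1 : C5 ≤ 2 * C1 + K1 + L5 + 4 + C5 := by linarith
  have m2 : Real.exp (3 * EE C1 L δ) ≤ Real.exp (3 * EE (2 * C1 + K1 + L5 + 4 + C5) L δ) := by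
    apply Real.exp_le_exp.2
    have := EE_mono hC1 (show C1 ≤ 2 * C1 + K1 + L5 + 4 + C5 by linarith) hL1 hδ0
    linarith
  apply mul_le_mul_of_nonneg_right _ (norm_nonneg _)
  exact mul_le_mul m1 m2 (Real.exp_pos _).le (by linarith)

end Pool.Agent.Q251.DS.VI
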